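import Mathlib
import Pool.Agent.V1198.Ienv
import Pool.Agent.V1198.Ienv2

/-!
# MP_a5b52c, Q1: a negative answer
-/

set_option autoImplicit false

namespace Pool.Agent.Results.MP_a5b52c_an.NotDense

open Pool.Agent.V1198.IE

/-- There are a Banach space `X` and a set `A ⊆ X*` such that `Ienv_b(A)` is not norm dense in
`Ienv(A)`. -/
theorem result :
    ∃ (X : Type) (_ : NormedAddCommGroup X) (_ : NormedSpace ℝ X) (_ : CompleteSpace X)
      (A : Set (X →L[ℝ] ℝ)),
      ¬ Ienv A ⊆ closure (⋃ n : ℕ, Ienv (A ∩ Metric.closedBall 0 (n : ℝ))) :=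
  exists_dense_counterexample

end Pool.Agent.Results.MP_a5b52c_an.NotDense
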